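import Pool.Agent.TH579.ECMain

/-!
# P(c,m) fails for all 3 ≤ m < c ≤ 4m + 50

P(c,m) is the statement of the problem, in the form of the frozen statement. Write c = C(M,2) + 1 - r with
r + 2 ≤ M and m = C(n,2) + 1 - δ with δ + 2 ≤ n (every integer at least 2 has exactly one such form). We prove: if
P(c,m) holds with 3 ≤ m < c, then 2n ≤ M, and hence c ≥ 4m + 51.

The first of the two kinds of counterexamples uses classes of twins joined along the edges of a forest of paths
(it leaves only pairs with n ≤ δ q + min(u, δ) + 1 where M - 1 = q r + u is division with remainder), the second one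
large nearly monochromatic cliques (it leaves only pairs with r > 3δ or r ≥ n + δ).
-/

set_option autoImplicit false

namespace Pool.Agent.Results.MP_ea54b6_co.LinearRange

open Pool.Agent.Results.MP_ea54b6_co.Mod6 (rep)
open Pool.Agent.TH579.EC

/-- if `P(c,m)` holds and `3 ≤ m < c`, then `c ≥ 4m + 51`, because `2n ≤ M` in the usual parameters -/
theorem result (c m : ℕ) (hm3 : 3 ≤ m) (hmc : m < c)
    (hP : ∀ f : ℕ → ℕ → Fin c, (∀ k : Fin c, ∃ i j : ℕ, i < j ∧ f i j = k) →
      ∃ S : Set ℕ, S.Infinite ∧ ({x : Fin c | ∃ i ∈ S, ∃ j ∈ S, i < j ∧ f i j = x}).ncard = m) :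
    4 * m + 51 ≤ c ∧
      ∀ M r n δ : ℕ, r + 2 ≤ M → c + r = M.choose 2 + 1 → δ + 2 ≤ n → m + δ = n.choose 2 + 1 → 2 * n ≤ M := by
  refine ⟨?_, ?_⟩
  · obtain ⟨M, r, hM, hc⟩ := rep c (by omega)
    obtain ⟨n, δ, hn, hm⟩ := rep m (by omega)
    obtain ⟨⟨t, h1, h2, h3⟩, h4, h5, h6, -⟩ := all_conditions c m M n r δ hm3 hmc hM hc hn hm hP
    have := four_mul c m M n r δ hc hm h6 (by omega) (by omega)
    omega
  · intro M r n δ hM hc hn hm
    obtain ⟨-, -, -, h6, -⟩ := all_conditions c m M n r δ hm3 hmc hM hc hn hm hP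
    exact h6

end Pool.Agent.Results.MP_ea54b6_co.LinearRange
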