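import Pool.Agent.TH579.ECMain
import Pool.Agent.TH579.ECSlope

/-!
# Residue classes modulo 6 of the sizes M and n left for P(c,m)

P(c,m) is the statement of the problem, in the form of the frozen statement. Write c = C(M,2) + 1 - r with
r + 2 ≤ M and m = C(n,2) + 1 - δ with δ + 2 ≤ n (every integer at least 2 has exactly one such form). If P(c,m)
holds with 3 ≤ m < c, then r ≡ δ mod 6 by the starting theorem. We prove that moreover the triple (M, n, δ) lies in
one of 90 of the 216 classes modulo 6: M odd and n even is impossible, for M not divisible by 3 one has n ≡ M mod 3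
except for two families of classes, and for M divisible by 3 and n ≡ 2 mod 3 the number δ is divisible by 3.

The counterexamples colour all edges at a finite complete graph on M (or M + 1) vertices through long paths and
cycles of monochromatic triangles, or of four-vertex blocks coloured by three perfect matchings, so that every
vertex of the finite graph loses the same number of colours modulo 2 or 3.
-/

set_option autoImplicit false

namespace Pool.Agent.Results.MP_ea54b6_co.Residues

open Pool.Agent.TH579.EC

/-- if `P(c,m)` holds and `3 ≤ m < c`, then the parameters avoid 126 of the 216 residue classes modulo 6 -/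
theorem result (c m : ℕ) (hm3 : 3 ≤ m) (hmc : m < c)
    (hP : ∀ f : ℕ → ℕ → Fin c, (∀ k : Fin c, ∃ i j : ℕ, i < j ∧ f i j = k) →
      ∃ S : Set ℕ, S.Infinite ∧ ({x : Fin c | ∃ i ∈ S, ∃ j ∈ S, i < j ∧ f i j = x}).ncard = m)
    (M r n δ : ℕ) (hM : r + 2 ≤ M) (hc : c + r = M.choose 2 + 1) (hn : δ + 2 ≤ n)
    (hm : m + δ = n.choose 2 + 1) :
    ¬ (M % 2 = 1 ∧ n % 2 = 0) ∧
      (M % 3 = 1 → n % 3 = 1 ∨ (n % 3 = 2 ∧ δ % 3 = 0)) ∧
      (M % 3 = 2 → n % 3 = 2 ∨ (n % 3 = 1 ∧ δ % 3 = 2)) ∧
      (M % 3 = 0 → n % 3 = 2 → δ % 3 = 0) := by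
  obtain ⟨⟨t, h1, h2, h3⟩, h4, h5, h6, h7⟩ := all_conditions c m M n r δ hm3 hmc hM hc hn hm hP
  have hM45 : 45 ≤ M := by omega
  refine ⟨?_, ?_, ?_, ?_⟩
  · rintro ⟨ho, he⟩
    exact even_odd c m M n r δ hM hc hm (by omega) (by omega) h4 (by omega) ho he (by omega) hP
  · intro hM1
    by_contra hcon
    exact res3 c m M n r δ (by omega) hc hm (by omega) h5 h4 (by omega) hM45 (by omega) (by omega) (by omega) hP
  · intro hM2
    by_contra hcon
    exact res3 c m M n r δ (by omega) hc hm (by omega) h5 h4 (by omega) hM45 (by omega) (by omega) (by omega) hP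
  · intro hM0 hn2
    by_contra hcon
    exact plane_two c m M n r δ hM hc hm (by omega) (by omega) h4 (by omega) (by omega) (by omega) (by omega)
      (by omega) (by omega) hP

end Pool.Agent.Results.MP_ea54b6_co.Residues
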