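import Pool.Agent.TH579.ECMain
import Pool.Agent.TH579.ECSlope2

/-!
# P(c,m) forces the relative deficits of m and c to be nearly proportional

P(c,m) is the statement of the problem, in the form of the frozen statement. Write c = C(M,2) + 1 - r with
r + 2 ≤ M and m = C(n,2) + 1 - δ with δ + 2 ≤ n (every integer at least 2 has exactly one such form). If P(c,m)
holds with 3 ≤ m < c, then δ / n is at least about 1 / ⌈(M-1)/r⌉ (exactly: n ≤ δ q + min(u, δ) + 1, where
M - 1 = q r + u is division with remainder); and δ / n is at most about r / M (exactly: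
M (δ - 2) ≤ (n + 2) (r + 11), for M ≥ 80 and 3 (r + 11) ≤ 2 M), unless M ≡ 0 mod 6 and either n ≡ 1 mod 6, or
n ≡ 5 mod 6 and δ ≡ 0 mod 3.

The first kind of counterexamples uses classes of twins joined along a forest of paths. The second kind colours the
edges of a finite complete graph through one or two long paths of monochromatic triangles, or of four-vertex blocks
coloured by three perfect matchings, together with equally spaced further blocks, so that all sets of n + 1 vertices
lose few colours, and sets of n vertices lose a number of colours in a prescribed class modulo 2 or 3.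
-/

set_option autoImplicit false

namespace Pool.Agent.Results.MP_ea54b6_co.Slope

open Pool.Agent.TH579.EC

/-- if `P(c,m)` holds and `3 ≤ m < c`, then `δ / n` is bounded below in terms of `r / M` and, outside a few residue
classes modulo 6, also above -/
theorem result (c m : ℕ) (hm3 : 3 ≤ m) (hmc : m < c)
    (hP : ∀ f : ℕ → ℕ → Fin c, (∀ k : Fin c, ∃ i j : ℕ, i < j ∧ f i j = k) →
      ∃ S : Set ℕ, S.Infinite ∧ ({x : Fin c | ∃ i ∈ S, ∃ j ∈ S, i < j ∧ f i j = x}).ncard = m)
    (M r n δ : ℕ) (hM : r + 2 ≤ M) (hc : c + r = M.choose 2 + 1) (hn : δ + 2 ≤ n)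
    (hm : m + δ = n.choose 2 + 1) :
    n ≤ δ * ((M - 1) / r) + min ((M - 1) % r) δ + 1 ∧
      (80 ≤ M → 3 * (r + 11) ≤ 2 * M →
        M * (δ - 2) ≤ (n + 2) * (r + 11) ∨ (M % 6 = 0 ∧ (n % 6 = 1 ∨ (n % 6 = 5 ∧ δ % 3 = 0)))) := by
  obtain ⟨⟨t, h1, h2, h3⟩, h4, h5, h6, h7⟩ := all_conditions c m M n r δ hm3 hmc hM hc hn hm hP
  refine ⟨?_, fun h80 hρ => ?_⟩
  · by_contra hcon
    refine twin_case c m (M - 1) (n - 1) r δ (by omega) (by omega) ?_ (by omega) (by omega) ?_ (by omega) hP
    · rw [show M - 1 + 1 = M by omega]; exact hc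
    · rw [show n - 1 + 1 = n by omega]; exact hm
  · rcases Nat.lt_or_ge ((n + 2) * (r + 11)) (M * (δ - 2)) with h | h
    · exact Or.inr (slope c m M n r δ (by omega) hc hm (by omega) h5 h4 (by omega) h80 hρ h hP)
    · exact Or.inl h

end Pool.Agent.Results.MP_ea54b6_co.Slope
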