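import Pool.Agent.TH579.ECMain

/-!
# P(c,m) fails for every m from 3 to 192 and every c > m

P(c,m) is the statement of the problem, in the form of the frozen statement: every edge colouring of the complete
graph on the natural numbers that uses all c colours has an infinite vertex set whose edges use exactly m colours.
We prove: if P(c,m) holds with 3 ≤ m < c, then m ≥ 193; more precisely, if m = C(n,2) + 1 - δ with δ + 2 ≤ n
(every m ≥ 2 has exactly one such form), then δ ≥ 18.

The counterexamples are colourings of a finite rainbow complete graph joined to infinity in which some colours are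
repeated: paths of monochromatic triangles or of four-vertex blocks coloured by three perfect matchings, plus one
gadget of at most 12 vertices all of whose partial redundancies avoid the target value modulo 2 or 3.
-/

set_option autoImplicit false

namespace Pool.Agent.Results.MP_ea54b6_co.SmallM

open Pool.Agent.Results.MP_ea54b6_co.Mod6 (rep choose_two_succ choose_two_mono)
open Pool.Agent.TH579.EC

/-- if `P(c,m)` holds and `3 ≤ m < c`, then `m ≥ 193`, and the deficit `δ` of `m` is at least 18 -/
theorem result (c m : ℕ) (hm3 : 3 ≤ m) (hmc : m < c)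
    (hP : ∀ f : ℕ → ℕ → Fin c, (∀ k : Fin c, ∃ i j : ℕ, i < j ∧ f i j = k) →
      ∃ S : Set ℕ, S.Infinite ∧ ({x : Fin c | ∃ i ∈ S, ∃ j ∈ S, i < j ∧ f i j = x}).ncard = m) :
    193 ≤ m ∧ ∀ n δ : ℕ, δ + 2 ≤ n → m + δ = n.choose 2 + 1 → 18 ≤ δ := by
  obtain ⟨M, r, hM, hc⟩ := rep c (by omega)
  have key : ∀ n δ : ℕ, δ + 2 ≤ n → m + δ = n.choose 2 + 1 → 18 ≤ δ ∧ δ + 3 ≤ n := by
    intro n δ hn hm
    obtain ⟨-, h1, h2, -⟩ := all_conditions c m M n r δ hm3 hmc hM hc hn hm hP
    exact ⟨h2, h1⟩
  refine ⟨?_, fun n δ hn hm => (key n δ hn hm).1⟩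
  obtain ⟨n, δ, hn, hm⟩ := rep m (by omega)
  obtain ⟨h1, h2⟩ := key n δ hn hm
  have e1 := choose_two_succ (n - 1)
  rw [show n - 1 + 1 = n by omega] at e1
  have h3 := choose_two_mono (show 20 ≤ n - 1 by omega)
  have h4 : (20 : ℕ).choose 2 = 190 := by decide
  omega

end Pool.Agent.Results.MP_ea54b6_co.SmallM
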